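import Pool.Agent.H62.UN.Targets

/-!
# MP_8b378c_ag: functions without poles through the point are regular at the point (row HAR)
-/

set_option autoImplicit false

namespace Pool.Agent.H63.UNT

open Polynomial Pool.Agent.H17.UN Pool.Agent.H62.UN

theorem isVal_one {E : Type} [Field E] {o : E → ℤ} (h : IsVal o) : o 1 = 0 := by
  have h1 := h.mul 1 1 one_ne_zero one_ne_zero
  rw [mul_one] at h1
  omega

theorem isVal_pow {E : Type} [Field E] {o : E → ℤ} (h : IsVal o) (x : E) (hx : x ≠ 0) (n : ℕ) :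
    o (x ^ n) = n * o x := by
  induction n with
  | zero => simp [isVal_one h]
  | succ n ih =>
    rw [pow_succ, h.mul _ _ (pow_ne_zero n hx) hx, ih]
    push_cast
    ring

theorem pf_HAR : F_HAR := by
  intro hgl hfs k F _ _ _ _ _ P Q s y z hcb p0 φ hp0 hp hev f hf hthr
  classical
  have hfin := hfs k F P Q s y z hcb f hf
  have key : ∀ v : PrimeDivisor (ch k s y z), ∃ a : ch k s y z 0, φ a ≠ 0 ∧
      (v.Meets 0 → v.ord f < 0 → 1 ≤ v.ord (a : F)) := by
    intro v
    by_cases hv : v.Meets 0 ∧ v.ord f < 0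
    · have hnt : ¬ Thr φ v := fun h => absurd (hthr v h) (not_le.mpr hv.2)
      have hex : ∃ a : ch k s y z 0, φ a ≠ 0 ∧ v.ord (a : F) ≠ 0 := by
        by_contra hcon
        push Not at hcon
        exact hnt ⟨hv.1, hcon⟩
      obtain ⟨a, ha1, ha2⟩ := hex
      refine ⟨a, ha1, fun hm _ => ?_⟩
      have h0 := hm (a : F) a.2
      omega
    · refine ⟨1, by rw [map_one]; exact one_ne_zero, fun h1 h2 => absurd ⟨h1, h2⟩ hv⟩
  choose A hA1 hA2 using key
  set S : Finset (PrimeDivisor (ch k s y z)) := hfin.toFinset with hS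
  set g : ch k s y z 0 := ∏ v ∈ S, (A v) ^ (-v.ord f).toNat with hg
  have hφg : φ g ≠ 0 := by
    rw [hg, map_prod, Finset.prod_ne_zero_iff]
    intro v _
    rw [map_pow]
    exact pow_ne_zero _ (hA1 v)
  have hne : ∀ a : ch k s y z 0, φ a ≠ 0 → (a : F) ≠ 0 := by
    intro a ha h0
    apply ha
    have : a = 0 := Subtype.ext h0
    rw [this, map_zero]
  have hg0 : (g : F) ≠ 0 := hne g hφg
  have hmem : f * (g : F) ∈ ch k s y z 0 := by
    refine hgl k F P Q s y z hcb (f * (g : F)) (mul_ne_zero hf hg0) ?_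
    intro o ho hc
    rw [ho.mul _ _ hf hg0]
    by_cases hpos : 0 ≤ o f
    · have := hc.nn (g : F) g.2
      omega
    · push Not at hpos
      set v : PrimeDivisor (ch k s y z) := toPD o ho 0 hc with hv
      have hvo : v.ord = o := rfl
      have hvS : v ∈ S := by
        rw [hS, Set.Finite.mem_toFinset]
        change v.ord f ≠ 0
        rw [hvo]
        exact ne_of_lt hpos
      have hmeet : v.Meets 0 := hc.nn
      have hav : 1 ≤ o (A v : F) := by
        have := hA2 v hmeet (by rw [hvo]; exact hpos)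
        rwa [hvo] at this
      have hsplit : g = (A v) ^ (-v.ord f).toNat * ∏ w ∈ S.erase v, (A w) ^ (-w.ord f).toNat := by
        rw [hg]
        exact (Finset.mul_prod_erase S (fun w => (A w) ^ (-w.ord f).toNat) hvS).symm
      set r : ch k s y z 0 := ∏ w ∈ S.erase v, (A w) ^ (-w.ord f).toNat with hr
      have hφr : φ r ≠ 0 := by
        rw [hr, map_prod, Finset.prod_ne_zero_iff]
        intro w _
        rw [map_pow]
        exact pow_ne_zero _ (hA1 w)
      have hr0 : (r : F) ≠ 0 := hne r hφr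
      have hA0 : (A v : F) ≠ 0 := hne _ (hA1 v)
      have hgF : (g : F) = (A v : F) ^ (-v.ord f).toNat * (r : F) := by
        rw [hsplit]
        push_cast
        rfl
      have hrnn := hc.nn (r : F) r.2
      rw [hgF, ho.mul _ _ (pow_ne_zero _ hA0) hr0, isVal_pow ho _ hA0, hvo]
      have hn : ((-o f).toNat : ℤ) = -o f := Int.toNat_of_nonneg (by omega)
      rw [hn]
      nlinarith [hrnn, hav, hpos]
  refine ⟨⟨f * (g : F), hmem⟩, g, hφg, ?_⟩
  rfl

end Pool.Agent.H63.UNT
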